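import Mathlib

/-!
# The derived category of the Ginzburg dg algebra of a quiver with potential: definitions for the statement
-/

open CategoryTheory CategoryTheory.Limits CategoryTheory.Triangulated
  CategoryTheory.Pretriangulated

namespace Gin

/-- A finite quiver (`n` vertices, `m` arrows) with a superpotential `W` of degree `3`: a linear combination
of cyclic paths of length `≥ 3`. The word `[a₁, …, aᵣ]` is the path `a₁ ⋯ aᵣ` which starts with the arrow `aᵣ`. -/
structure QP (k : Type) [Field k] where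
  n : ℕ
  m : ℕ
  src : Fin m → Fin n
  tgt : Fin m → Fin n
  W : List (k × List (Fin m))
  three : ∀ t ∈ W, 3 ≤ t.2.length
  cyclic : ∀ t ∈ W, (t.2 ++ t.2).IsChain fun a b => src a = tgt b

variable {k : Type} [Field k]

/-- The cyclic derivative `∂W/∂a`: for each occurrence `w = u a v` of `a` in a word `w` of `W` the word `v u`. -/
def QP.dW (Q : QP k) (a : Fin Q.m) : List (k × List (Fin Q.m)) :=
  Q.W.flatMap fun t => ((List.range t.2.length).filter fun i => t.2[i]? = some a).map fun i =>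
    (t.1, t.2.drop (i + 1) ++ t.2.take i)

variable {M : Type} [AddCommGroup M] [Module k M] {N : Type} [AddCommGroup N] [Module k N]
  {P : Type} [AddCommGroup P] [Module k P]

/-- `f` maps the component `gr i p` to `gr j (p + c)` and vanishes on the components `gr v p`, `v ≠ i`. -/
def Carries {n : ℕ} (gr : Fin n → ℤ → Submodule k M) (f : Module.End k M) (i j : Fin n) (c : ℤ) : Prop :=
  ∀ v p, (gr v p).map f ≤ if v = i then gr j (p + c) else ⊥

/-- The structure of a dg module over the Ginzburg dg algebra `Γ` of `(Q, W)` on a vector space `M`: a grading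
by vertices and degrees, a differential `d`, and the actions of the generators of `Γ`, i.e. of the arrows
`a : i → j` (degree `0`), of the opposite arrows `a* : j → i` (degree `-1`) and of the loops `t_i` (degree `-2`), with
`d a = 0`, `d a* = ∂W/∂a`, `d t_i = ∑_{a : • → i} a a* - ∑_{a : i → •} a* a`. -/
structure DG (Q : QP k) (M : Type) [AddCommGroup M] [Module k M] where
  gr : Fin Q.n → ℤ → Submodule k M
  dec : DirectSum.IsInternal fun q : Fin Q.n × ℤ => gr q.1 q.2
  d : Module.End k M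
  d_gr : ∀ v p, (gr v p).map d ≤ gr v (p + 1)
  d_d : d * d = 0
  x : Fin Q.m → Module.End k M
  x_gr : ∀ a, Carries gr (x a) (Q.src a) (Q.tgt a) 0
  d_x : ∀ a, d * x a = x a * d
  y : Fin Q.m → Module.End k M
  y_gr : ∀ a, Carries gr (y a) (Q.tgt a) (Q.src a) (-1)
  d_y : ∀ a, d * y a = ((Q.dW a).map fun t => t.1 • (t.2.map x).prod).sum - y a * d
  z : Fin Q.n → Module.End k M
  z_gr : ∀ i, Carries gr (z i) i i (-2)
  d_z : ∀ i, d * z i = (∑ a with Q.tgt a = i, x a * y a) - (∑ a with Q.src a = i, y a * x a) + z i * d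

/-- `f` is a morphism of dg modules. -/
structure IsHom {Q : QP k} (X : DG Q M) (Y : DG Q N) (f : M →ₗ[k] N) : Prop where
  gr : ∀ v p, (X.gr v p).map f ≤ Y.gr v p
  d : f ∘ₗ X.d = Y.d ∘ₗ f
  x : ∀ a, f ∘ₗ X.x a = Y.x a ∘ₗ f
  y : ∀ a, f ∘ₗ X.y a = Y.y a ∘ₗ f
  z : ∀ i, f ∘ₗ X.z i = Y.z i ∘ₗ f

lemma isHom_id {Q : QP k} (X : DG Q M) : IsHom X X LinearMap.id :=
  ⟨fun v p => by simp, by simp, by simp, by simp, by simp⟩

lemma IsHom.comp {Q : QP k} {X : DG Q M} {Y : DG Q N} {Z : DG Q P} {f : M →ₗ[k] N} {g : N →ₗ[k] P}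
    (hg : IsHom Y Z g) (hf : IsHom X Y f) : IsHom X Z (g ∘ₗ f) where
  gr v p := by
    rw [Submodule.map_comp]
    exact (Submodule.map_mono (hf.gr v p)).trans (hg.gr v p)
  d := by rw [LinearMap.comp_assoc, hf.d, ← LinearMap.comp_assoc, hg.d, LinearMap.comp_assoc]
  x a := by rw [LinearMap.comp_assoc, hf.x, ← LinearMap.comp_assoc, hg.x, LinearMap.comp_assoc]
  y a := by rw [LinearMap.comp_assoc, hf.y, ← LinearMap.comp_assoc, hg.y, LinearMap.comp_assoc]
  z a := by rw [LinearMap.comp_assoc, hf.z, ← LinearMap.comp_assoc, hg.z, LinearMap.comp_assoc]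

/-- `f` induces an isomorphism in cohomology. -/
def IsQis {Q : QP k} (X : DG Q M) (Y : DG Q N) (f : M →ₗ[k] N) : Prop :=
  (∀ u, X.d u = 0 → f u ∈ LinearMap.range Y.d → u ∈ LinearMap.range X.d) ∧
    ∀ w, Y.d w = 0 → ∃ u, X.d u = 0 ∧ w - f u ∈ LinearMap.range Y.d

/-- `h = f + c g` for linear maps. -/
def LinComb (h f g : M →ₗ[k] N) (c : k) : Prop := h = f + c • g

/-- `C` is `N ⊕ M[1]`, via `i : N → C` and `s : M → C` (of degree `-1`), with the differential of the mapping cone
of `f : M → N`. -/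
structure IsCone {Q : QP k} (X : DG Q M) (Y : DG Q N) (f : M →ₗ[k] N) (C : DG Q P) (i : N →ₗ[k] P)
    (s : M →ₗ[k] P) : Prop where
  bij : Function.Bijective fun u : N × M => i u.1 + s u.2
  hom : IsHom Y C i
  gr : ∀ v p, (X.gr v (p + 1)).map s ≤ C.gr v p
  d : C.d ∘ₗ s = i ∘ₗ f - s ∘ₗ X.d
  x : ∀ a, C.x a ∘ₗ s = s ∘ₗ X.x a
  y : ∀ a, C.y a ∘ₗ s = - s ∘ₗ X.y a
  z : ∀ i, C.z i ∘ₗ s = s ∘ₗ X.z i

/-- `S` is the shift `M[1]`, via `s : M → S` (of degree `-1`). -/
structure IsShift {Q : QP k} (X : DG Q M) (S : DG Q P) (s : M →ₗ[k] P) : Prop where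
  bij : Function.Bijective s
  gr : ∀ v p, (X.gr v (p + 1)).map s ≤ S.gr v p
  d : S.d ∘ₗ s = - s ∘ₗ X.d
  x : ∀ a, S.x a ∘ₗ s = s ∘ₗ X.x a
  y : ∀ a, S.y a ∘ₗ s = - s ∘ₗ X.y a
  z : ∀ i, S.z i ∘ₗ s = s ∘ₗ X.z i

/-- The cohomology is finite-dimensional and long paths of `Q` act by zero on it. (The dg modules with this property are
those with finite-dimensional cohomology over the completed Ginzburg dg algebra; they form the smallest triangulated subcategory
of the derived category which contains the simple modules at the vertices.) -/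
def IsNil {Q : QP k} (X : DG Q M) : Prop :=
  (∃ s : Finset M, ∀ u, X.d u = 0 → u ∈ Submodule.span k s ⊔ LinearMap.range X.d) ∧
    ∃ l : ℕ, ∀ w : List (Fin Q.m), l ≤ w.length → ∀ u, X.d u = 0 → (w.map X.x).prod u ∈ LinearMap.range X.d

/-- The cohomology vanishes in the degrees `p` with `¬ I p`. -/
def CohIn {Q : QP k} (X : DG Q M) (I : ℤ → Prop) : Prop :=
  ∀ v p, ¬ I p → ∀ u ∈ X.gr v p, X.d u = 0 → u ∈ LinearMap.range X.d

/-- A dg module over the Ginzburg dg algebra of `(Q, W)`. -/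
structure Mod (Q : QP k) where
  M : ModuleCat.{0} k
  str : DG Q M

/-- A morphism of dg modules. -/
@[ext] structure Mor {Q : QP k} (X Y : Mod Q) where
  f : X.M →ₗ[k] Y.M
  hom : IsHom X.str Y.str f

variable {Q : QP k}

def Mor.one (X : Mod Q) : Mor X X := ⟨LinearMap.id, isHom_id _⟩

def Mor.comp {X Y Z : Mod Q} (a : Mor X Y) (b : Mor Y Z) : Mor X Z := ⟨b.f ∘ₗ a.f, b.hom.comp a.hom⟩

lemma Mor.one_comp {X Y : Mod Q} (a : Mor X Y) : (Mor.one X).comp a = a := rfl

lemma Mor.comp_one {X Y : Mod Q} (a : Mor X Y) : a.comp (Mor.one Y) = a := rfl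

lemma Mor.assoc {X Y Z U : Mod Q} (a : Mor X Y) (b : Mor Y Z) (c : Mor Z U) :
    (a.comp b).comp c = a.comp (b.comp c) := rfl

/-- The category of dg modules. -/
instance : Category (Mod Q) where
  Hom := Mor
  id := Mor.one
  comp := Mor.comp
  id_comp := Mor.one_comp
  comp_id := Mor.comp_one
  assoc := Mor.assoc

/-- The underlying linear map of a morphism. -/
def ln {X Y : Mod Q} (a : X ⟶ Y) : X.M →ₗ[k] Y.M := Mor.f a

/-- The quasi-isomorphisms. -/
def qis (Q : QP k) : MorphismProperty (Mod Q) := fun X Y a => IsQis X.str Y.str (ln a)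

variable {D : Type 1} [Category.{1} D] [Preadditive D] [HasZeroObject D] [HasShift D ℤ]
    [∀ n : ℤ, (shiftFunctor D n).Additive] [Pretriangulated D] [Linear k D]

/-- `h = f + c g` for morphisms of `D`. -/
def LinCombD {X Y : D} (h f g : X ⟶ Y) (c : k) : Prop := h = f + c • g

/-- Isomorphisms between the images of the shifts of dg modules and the shifts of the images. -/
def ShiftIso (L : Mod Q ⥤ D) : Type 1 :=
  ∀ (X S : Mod Q) (s : X.M →ₗ[k] S.M), IsShift X.str S.str s → (L.obj S ≅ (L.obj X)⟦(1 : ℤ)⟧)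

/-- `e` is natural. -/
def IsNat (L : Mod Q ⥤ D) (e : ShiftIso L) : Prop :=
  ∀ (X S X' S' : Mod Q) (s : X.M →ₗ[k] S.M) (s' : X'.M →ₗ[k] S'.M) (hs : IsShift X.str S.str s)
    (hs' : IsShift X'.str S'.str s') (f : X ⟶ X') (g : S ⟶ S'), ln g ∘ₗ s = s' ∘ₗ ln f →
      L.map g ≫ (e X' S' s' hs').hom = (e X S s hs).hom ≫ (L.map f)⟦(1 : ℤ)⟧'

/-- `T` is isomorphic to the image of the triangle `X → Y → cone(f) → X[1]` of a morphism `f` of dg modules. -/
def IsConeTri (L : Mod Q ⥤ D) (e : ShiftIso L) (T : Triangle D) : Prop :=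
  ∃ (X Y C S : Mod Q) (f : X ⟶ Y) (i : Y ⟶ C) (s : X.M →ₗ[k] C.M) (p : C ⟶ S)
    (hS : IsShift X.str S.str (ln p ∘ₗ s)), IsCone X.str Y.str (ln f) C.str (ln i) s ∧ ln p ∘ₗ ln i = 0 ∧
      Nonempty (T ≅ Triangle.mk (L.map f) (L.map i) (L.map p ≫ (e X S (ln p ∘ₗ s) hS).hom))

/-- The triangulated category `D`, with the functor `L`, is the derived category of dg `Γ`-modules: `L` is the localization of the
category of dg modules with respect to the quasi-isomorphisms, it is linear, the shift of `D` is induced by the shift of dg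
modules (through the isomorphisms `e`), and the distinguished triangles of `D` are those isomorphic to the images of the
triangles `X → Y → cone(f) → X[1]`. This determines the `k`-linear triangulated category `D` up to equivalence. -/
structure IsDerived (L : Mod Q ⥤ D) (e : ShiftIso L) : Prop where
  loc : L.IsLocalization (qis Q)
  lin : ∀ (X Y : Mod Q) (f g h : X ⟶ Y) (c : k), LinComb (ln h) (ln f) (ln g) c →
    LinCombD (L.map h) (L.map f) (L.map g) c
  nat : IsNat L e
  tri : ∀ T : Triangle D, T ∈ distTriang D ↔ IsConeTri L e T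

/-- `P` is the full subcategory `D_fd(Γ)` of the derived category `D`, and `t` is its standard t-structure: `t.le n` consists
of the objects with cohomology in degrees `≤ n`, `t.ge n` of the objects with cohomology in degrees `≥ n`. -/
structure IsStd (L : Mod Q ⥤ D) (P : ObjectProperty D) [P.IsTriangulated] (t : TStructure P.FullSubcategory) :
    Prop where
  nil : ∀ X : D, P X ↔ ∃ M : Mod Q, IsNil M.str ∧ Nonempty (X ≅ L.obj M)
  le : ∀ (X : P.FullSubcategory) (n : ℤ), t.le n X ↔ ∃ M : Mod Q, CohIn M.str (· ≤ n) ∧ Nonempty (X.obj ≅ L.obj M)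
  ge : ∀ (X : P.FullSubcategory) (n : ℤ), t.ge n X ↔ ∃ M : Mod Q, CohIn M.str (n ≤ ·) ∧ Nonempty (X.obj ≅ L.obj M)

end Gin
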