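import Pool.Agent.Lib_MP_a23b08_s.STri

/-!
# Existence of cones, distinguished triangles
-/

open CategoryTheory CategoryTheory.Limits CategoryTheory.Pretriangulated

set_option backward.isDefEq.respectTransparency false
set_option linter.unusedVariables false

namespace Gin

variable {k : Type} [Field k] {Q : QP k}

lemma isHom_from {X : Mod Q} {Z : GZ.DGM (GZ.ginz Q.toGZ)} (f : toD X ⟶ Z) :
    IsHom X.str (fromD Z).str (GZ.DGM.lin f) where
  gr := by
    rintro v p _ ⟨u, hu, rfl⟩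
    exact GZ.DGM.lin_mem f hu
  d := LinearMap.ext fun u => GZ.DGM.lin_d f u
  x a := LinearMap.ext fun u => GZ.DGM.lin_act f (.arr a) u
  y a := LinearMap.ext fun u => GZ.DGM.lin_act f (.star a) u
  z i := LinearMap.ext fun u => GZ.DGM.lin_act f (.loop i) u

lemma isHom_from' {Y Z : GZ.DGM (GZ.ginz Q.toGZ)} (f : Y ⟶ Z) :
    IsHom (fromD Y).str (fromD Z).str (GZ.DGM.lin f) where
  gr := by
    rintro v p _ ⟨u, hu, rfl⟩
    exact GZ.DGM.lin_mem f hu
  d := LinearMap.ext fun u => GZ.DGM.lin_d f u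
  x a := LinearMap.ext fun u => GZ.DGM.lin_act f (.arr a) u
  y a := LinearMap.ext fun u => GZ.DGM.lin_act f (.star a) u
  z i := LinearMap.ext fun u => GZ.DGM.lin_act f (.loop i) u

lemma exists_shift (X : Mod Q) : IsShift X.str (fromD ((toD X).sh 1)).str (LinearMap.id : X.M →ₗ[k] X.M) where
  bij := Function.bijective_id
  gr := by
    rintro v p _ ⟨u, hu, rfl⟩
    exact hu
  d := by
    apply LinearMap.ext
    intro u
    change GZ.sg k 1 • X.str.d u = - X.str.d u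
    rw [GZ.sg_one, neg_one_smul]
  x a := by
    apply LinearMap.ext
    intro u
    change GZ.sg k 0 • X.str.x a u = X.str.x a u
    rw [GZ.sg_zero, one_smul]
  y a := by
    apply LinearMap.ext
    intro u
    change GZ.sg k (-1) • X.str.y a u = - X.str.y a u
    rw [GZ.sg_neg_one, neg_one_smul]
  z i := by
    apply LinearMap.ext
    intro u
    change GZ.sg k (-2) • X.str.z i u = X.str.z i u
    rw [GZ.sg_even (by decide), one_smul]

/-- the image of the second summand -/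
def inX (X Y : Mod Q) (f : X ⟶ Y) : X.M →ₗ[k] (fromD (GZ.DGM.cone ((toF Q).map f))).M :=
  LinearMap.inr k Y.M X.M

/-- the inclusion in the cone -/
noncomputable def iC {X Y : Mod Q} (f : X ⟶ Y) : Y ⟶ fromD (GZ.DGM.cone ((toF Q).map f)) :=
  (⟨GZ.DGM.lin (GZ.DGM.inr ((toF Q).map f)), isHom_from _⟩ : Mor _ _)

/-- the projection from the cone -/
noncomputable def pC {X Y : Mod Q} (f : X ⟶ Y) : fromD (GZ.DGM.cone ((toF Q).map f)) ⟶ fromD ((toD X).sh 1) :=
  (⟨GZ.DGM.lin (GZ.DGM.pr ((toF Q).map f)), isHom_from' _⟩ : Mor _ _)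

lemma isCone_cone {X Y : Mod Q} (f : X ⟶ Y) : IsCone X.str Y.str (ln f)
    (fromD (GZ.DGM.cone ((toF Q).map f))).str (ln (iC f)) (inX X Y f) := by
  have key : ∀ (a : GZ.Gen (Fin Q.n) (Fin Q.m)) (x : X.M),
      (GZ.DGM.cone ((toF Q).map f)).act a ((0 : Y.M), x) =
        ((0 : Y.M), GZ.sg k (GZ.Gen.gdeg a) • actG X.str a x) := by
    intro a x
    refine (GZ.DGM.cone_act ((toF Q).map f) a 0 x).trans ?_
    exact Prod.ext (map_zero (actG Y.str a)) rfl
  refine
    { bij := ?_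
      hom := isHom_from _
      gr := ?_
      d := ?_
      x := ?_
      y := ?_
      z := ?_ }
  · have : (fun v : Y.M × X.M => (LinearMap.inl k Y.M X.M) v.1 + (LinearMap.inr k Y.M X.M) v.2) = id := by
      funext v
      simp
    change Function.Bijective (fun v : Y.M × X.M =>
      (LinearMap.inl k Y.M X.M) v.1 + (LinearMap.inr k Y.M X.M) v.2)
    rw [this]
    exact Function.bijective_id
  · rintro v p _ ⟨x, hx, rfl⟩
    exact ⟨zero_mem _, hx⟩
  · apply LinearMap.ext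
    intro x
    refine (GZ.DGM.cone_d ((toF Q).map f) 0 x).trans ?_
    change ((Y.str.d 0 + ln f x, - X.str.d x) : Y.M × X.M) = (ln f x, (0 : X.M)) - ((0 : Y.M), X.str.d x)
    rw [map_zero, zero_add]
    simp
  · intro a
    apply LinearMap.ext
    intro x
    refine (key (.arr a) x).trans ?_
    change ((0 : Y.M), GZ.sg k 0 • X.str.x a x) = ((0 : Y.M), X.str.x a x)
    rw [GZ.sg_zero, one_smul]
  · intro a
    apply LinearMap.ext
    intro x
    refine (key (.star a) x).trans ?_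
    change ((0 : Y.M), GZ.sg k (-1) • X.str.y a x) = -((0 : Y.M), X.str.y a x)
    rw [GZ.sg_neg_one, neg_one_smul]
    simp
  · intro i
    apply LinearMap.ext
    intro x
    refine (key (.loop i) x).trans ?_
    change ((0 : Y.M), GZ.sg k (-2) • X.str.z i x) = ((0 : Y.M), X.str.z i x)
    rw [GZ.sg_even (by decide), one_smul]

lemma exists_cone {X Y : Mod Q} (f : X ⟶ Y) :
    ∃ (C S : Mod Q) (i : Y ⟶ C) (s : X.M →ₗ[k] C.M) (p : C ⟶ S), IsShift X.str S.str (ln p ∘ₗ s) ∧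
      IsCone X.str Y.str (ln f) C.str (ln i) s ∧ ln p ∘ₗ ln i = 0 := by
  refine ⟨_, _, iC f, inX X Y f, pC f, ?_, isCone_cone f, LinearMap.ext fun y => rfl⟩
  have : ln (pC f) ∘ₗ inX X Y f = (LinearMap.id : X.M →ₗ[k] X.M) := LinearMap.ext fun y => rfl
  rw [this]
  exact exists_shift X

lemma tri_iff (T : Triangle (GZ.DGM.Der (GZ.ginz Q.toGZ))) :
    T ∈ distTriang (GZ.DGM.Der (GZ.ginz Q.toGZ)) ↔ IsConeTri (LF Q) (eF Q) T := by
  constructor
  · intro hT
    obtain ⟨X, Y, f, ⟨e⟩⟩ := GZ.DGM.exists_tri_iso T hT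
    obtain ⟨X', ⟨a⟩⟩ := Functor.EssSurj.mem_essImage (F := toF Q) X
    obtain ⟨Y', ⟨b⟩⟩ := Functor.EssSurj.mem_essImage (F := toF Q) Y
    obtain ⟨f', hf'⟩ := (toF Q).map_surjective (a.hom ≫ f ≫ b.inv)
    obtain ⟨C, S, i, s, p, hS, hC, hp⟩ := exists_cone f'
    obtain ⟨e2⟩ := coneTri_iso Q f' i s p hS hC hp
    refine ⟨X', Y', C, S, f', i, s, p, hS, hC, hp, ⟨?_⟩⟩
    refine e ≪≫ ?_ ≪≫ e2.symm
    refine Pretriangulated.isoTriangleOfIso₁₂ _ _ (GZ.DGM.tri_distinguished f)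
      (GZ.DGM.tri_distinguished ((toF Q).map f')) ((GZ.DGM.Q _).mapIso a.symm)
      ((GZ.DGM.Q _).mapIso b.symm) ?_
    change (GZ.DGM.Q (GZ.ginz Q.toGZ)).map f ≫ (GZ.DGM.Q (GZ.ginz Q.toGZ)).map b.inv =
      (GZ.DGM.Q (GZ.ginz Q.toGZ)).map a.inv ≫ (GZ.DGM.Q (GZ.ginz Q.toGZ)).map ((toF Q).map f')
    rw [hf', ← Functor.map_comp, ← Functor.map_comp, Iso.inv_hom_id_assoc]
  · rintro ⟨X, Y, C, S, f, i, s, p, hS, hC, hp, ⟨e⟩⟩
    obtain ⟨e2⟩ := coneTri_iso Q f i s p hS hC hp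
    exact isomorphic_distinguished _ (GZ.DGM.tri_distinguished ((toF Q).map f)) _ (e ≪≫ e2)

lemma lin_LF (X Y : Mod Q) (f g h : X ⟶ Y) (c : k) (hh : LinComb (ln h) (ln f) (ln g) c) :
    LinCombD ((LF Q).map h) ((LF Q).map f) ((LF Q).map g) c := by
  have h1 : (toF Q).map h = (toF Q).map f + c • (toF Q).map g := by
    apply GZ.DGM.hom_ext
    intro x
    exact LinearMap.congr_fun hh x
  change (GZ.DGM.Q _).map ((toF Q).map h) = (GZ.DGM.Q _).map ((toF Q).map f) +
    c • (GZ.DGM.Q _).map ((toF Q).map g)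
  rw [h1, Functor.map_add, Functor.map_smul]

end Gin
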