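import Pool.Agent.Lib_MP_a23b08_s.SWord
import Pool.Agent.Lib_MP_a23b08_al.QPNice
import Pool.Agent.Lib_MP_a23b08_g.GShift

/-!
# The two forms of the category of dg modules over the Ginzburg dg algebra
-/

open CategoryTheory

set_option backward.isDefEq.respectTransparency false
set_option linter.unusedVariables false

namespace Gin

variable {k : Type} [Field k] {Q : QP k}

section single

variable {M : Type} [AddCommGroup M] [Module k M]

/-- the action of the generators -/
def actG (X : DG Q M) : GZ.Gen (Fin Q.n) (Fin Q.m) → M →ₗ[k] M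
  | .arr a => X.x a
  | .star a => X.y a
  | .loop i => X.z i

@[simp] lemma actG_arr (X : DG Q M) (a : Fin Q.m) : actG X (.arr a) = X.x a := rfl
@[simp] lemma actG_star (X : DG Q M) (a : Fin Q.m) : actG X (.star a) = X.y a := rfl
@[simp] lemma actG_loop (X : DG Q M) (i : Fin Q.n) : actG X (.loop i) = X.z i := rfl

lemma Carries.mem {n : ℕ} {gr : Fin n → ℤ → Submodule k M} {f : Module.End k M} {i j : Fin n} {c : ℤ}
    (h : Carries gr f i j c) {p q : ℤ} {u : M} (hq : p + c = q) (hu : u ∈ gr i p) : f u ∈ gr j q := by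
  have := h i p (Submodule.mem_map_of_mem hu)
  rw [if_pos rfl, hq] at this
  exact this

lemma Carries.zero {n : ℕ} {gr : Fin n → ℤ → Submodule k M} {f : Module.End k M} {i j : Fin n} {c : ℤ}
    (h : Carries gr f i j c) {v : Fin n} {p : ℤ} {u : M} (hv : v ≠ i) (hu : u ∈ gr v p) : f u = 0 := by
  have := h v p (Submodule.mem_map_of_mem hu)
  rw [if_neg hv] at this
  exact (Submodule.mem_bot k).1 this

lemma Carries.mk {n : ℕ} {gr : Fin n → ℤ → Submodule k M} {f : Module.End k M} {i j : Fin n} {c : ℤ}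
    (h1 : ∀ p, ∀ u ∈ gr i p, f u ∈ gr j (p + c)) (h2 : ∀ v p, v ≠ i → ∀ u ∈ gr v p, f u = 0) :
    Carries gr f i j c := by
  rintro v p _ ⟨u, hu, rfl⟩
  split_ifs with hv
  · subst hv
    exact h1 p u hu
  · exact (Submodule.mem_bot k).2 (h2 v p hv u hu)

lemma evW_map_arr (x : Fin Q.m → Module.End k M) (act : GZ.Gen (Fin Q.n) (Fin Q.m) → M →ₗ[k] M)
    (h : ∀ a, act (.arr a) = x a) (w : List (Fin Q.m)) (u : M) :
    GZ.evW act (w.map GZ.Gen.arr) u = (w.map x).prod u := by
  induction w with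
  | nil => rfl
  | cons a w ih =>
    rw [List.map_cons, GZ.evW_cons, ih, h, List.map_cons, List.prod_cons, Module.End.mul_apply]

lemma evP_dW (x : Fin Q.m → Module.End k M) (act : GZ.Gen (Fin Q.n) (Fin Q.m) → M →ₗ[k] M)
    (h : ∀ a, act (.arr a) = x a) (p : List (k × List (Fin Q.m))) (u : M) :
    GZ.evP act (p.map fun t => (t.1, t.2.map GZ.Gen.arr)) u =
      (p.map fun t => t.1 • (t.2.map x).prod).sum u := by
  induction p with
  | nil => rfl
  | cons t p ih =>
    rw [List.map_cons, GZ.evP_cons, ih, List.map_cons, List.sum_cons, evW_map_arr x act h]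
    rfl

lemma evP_map_filter (act : GZ.Gen (Fin Q.n) (Fin Q.m) → M →ₗ[k] M) (c : k) (l : List (Fin Q.m))
    (w : Fin Q.m → List (GZ.Gen (Fin Q.n) (Fin Q.m))) (u : M) :
    GZ.evP act (l.map fun a => (c, w a)) u = (l.map fun a => c • GZ.evW act (w a) u).sum := by
  induction l with
  | nil => rfl
  | cons a l ih => rw [List.map_cons, GZ.evP_cons, ih, List.map_cons, List.sum_cons]

lemma evP_loop (act : GZ.Gen (Fin Q.n) (Fin Q.m) → M →ₗ[k] M) (x y : Fin Q.m → Module.End k M)
    (hx : ∀ a, act (.arr a) = x a) (hy : ∀ a, act (.star a) = y a) (i : Fin Q.n) (u : M) :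
    GZ.evP act (Q.toGZ.gdiff (.loop i)) u =
      ((∑ a with Q.tgt a = i, x a * y a) - (∑ a with Q.src a = i, y a * x a)) u := by
  have h : Q.toGZ.gdiff (.loop i) = (Finset.univ.filter fun a => Q.tgt a = i).toList.map
        (fun a => (1, [GZ.Gen.arr a, GZ.Gen.star a])) ++
      (Finset.univ.filter fun a => Q.src a = i).toList.map
        fun a => (-1, [GZ.Gen.star a, GZ.Gen.arr a]) := rfl
  rw [h, GZ.evP_append, evP_map_filter, evP_map_filter, LinearMap.sub_apply,
    LinearMap.sum_apply, LinearMap.sum_apply, Finset.sum_map_toList, Finset.sum_map_toList,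
    sub_eq_add_neg, ← Finset.sum_neg_distrib]
  simp [hx, hy]

lemma evP_star (act : GZ.Gen (Fin Q.n) (Fin Q.m) → M →ₗ[k] M) (x : Fin Q.m → Module.End k M)
    (hx : ∀ a, act (.arr a) = x a) (a : Fin Q.m) (u : M) :
    GZ.evP act (Q.toGZ.gdiff (.star a)) u =
      ((Q.dW a).map fun t => t.1 • (t.2.map x).prod).sum u := by
  have h : Q.toGZ.gdiff (.star a) = (Q.dW a).map fun t => (t.1, t.2.map GZ.Gen.arr) := by
    exact congrArg (fun l : List (k × List (Fin Q.m)) => l.map fun t => (t.1, t.2.map (GZ.Gen.arr (V := Fin Q.n))))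
      (dW_toGZ Q a)
  refine (congrArg (fun p => GZ.evP act p u) h).trans ?_
  exact evP_dW (Q := Q) x act hx (Q.dW a) u

lemma leib_star {X : DG Q M} (a : Fin Q.m) (u : M) : X.d (X.y a u) =
    GZ.evP (actG X) (Q.toGZ.gdiff (.star a)) u + GZ.sg k (-1) • X.y a (X.d u) := by
  have h1 : X.d (X.y a u) =
    ((Q.dW a).map fun t => t.1 • (t.2.map X.x).prod).sum u - X.y a (X.d u) := LinearMap.congr_fun (X.d_y a) u
  rw [evP_star (actG X) X.x (fun _ => rfl), GZ.sg_neg_one, neg_one_smul, ← sub_eq_add_neg, h1]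

lemma leib_star_iff (d : M →ₗ[k] M) (act : GZ.Gen (Fin Q.n) (Fin Q.m) → M →ₗ[k] M)
    (x y : Fin Q.m → Module.End k M) (hx : ∀ a, act (.arr a) = x a) (a : Fin Q.m)
    (h : ∀ u, d (y a u) = GZ.evP act (Q.toGZ.gdiff (.star a)) u + GZ.sg k (-1) • y a (d u)) :
    (d * y a : Module.End k M) = ((Q.dW a).map fun t => t.1 • (t.2.map x).prod).sum - y a * d := by
  apply LinearMap.ext
  intro u
  refine (h u).trans ?_
  rw [evP_star act x hx, GZ.sg_neg_one, neg_one_smul, ← sub_eq_add_neg]
  rfl

lemma leib_loop_iff (d : M →ₗ[k] M) (act : GZ.Gen (Fin Q.n) (Fin Q.m) → M →ₗ[k] M)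
    (x y : Fin Q.m → Module.End k M) (z : Fin Q.n → Module.End k M) (hx : ∀ a, act (.arr a) = x a)
    (hy : ∀ a, act (.star a) = y a) (i : Fin Q.n)
    (h : ∀ u, d (z i u) = GZ.evP act (Q.toGZ.gdiff (.loop i)) u + GZ.sg k (-2) • z i (d u)) :
    (d * z i : Module.End k M) =
      (∑ a with Q.tgt a = i, x a * y a) - (∑ a with Q.src a = i, y a * x a) + z i * d := by
  apply LinearMap.ext
  intro u
  refine (h u).trans ?_
  rw [evP_loop act x y hx hy, GZ.sg_even (by decide), one_smul]
  rfl

lemma leib_loop {X : DG Q M} (i : Fin Q.n) (u : M) : X.d (X.z i u) =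
    GZ.evP (actG X) (Q.toGZ.gdiff (.loop i)) u + GZ.sg k (-2) • X.z i (X.d u) := by
  refine (LinearMap.congr_fun (X.d_z i) u).trans ?_
  rw [evP_loop (actG X) X.x X.y (fun _ => rfl) (fun _ => rfl), GZ.sg_even (by decide), one_smul]
  rfl

end single

/-- A dg module in the other form. -/
def toD (X : Mod Q) : GZ.DGM (GZ.ginz Q.toGZ) where
  M := X.M
  gr := X.str.gr
  indep := ((DirectSum.isInternal_submodule_iff_iSupIndep_and_iSup_eq_top _).1 X.str.dec).1
  iSup_eq_top := ((DirectSum.isInternal_submodule_iff_iSupIndep_and_iSup_eq_top _).1 X.str.dec).2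
  d := X.str.d
  act := actG X.str
  d_mem := by
    intro v p q u h hu
    subst h
    exact X.str.d_gr v p (Submodule.mem_map_of_mem hu)
  d_d u := LinearMap.congr_fun X.str.d_d u
  act_mem := by
    intro a p q u h hu
    cases a with
    | arr a => exact (X.str.x_gr a).mem h hu
    | star a => exact (X.str.y_gr a).mem h hu
    | loop i => exact (X.str.z_gr i).mem h hu
  act_zero := by
    intro a v p u h hu
    cases a with
    | arr a => exact (X.str.x_gr a).zero h hu
    | star a => exact (X.str.y_gr a).zero h hu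
    | loop i => exact (X.str.z_gr i).zero h hu
  leibniz := by
    intro a u
    cases a with
    | arr a =>
      have h1 := LinearMap.congr_fun (X.str.d_x a) u
      change X.str.d (X.str.x a u) = GZ.evP (actG X.str) [] u + GZ.sg k 0 • X.str.x a (X.str.d u)
      rw [GZ.evP_nil, GZ.sg_zero, one_smul, LinearMap.zero_apply, zero_add]
      exact h1
    | star a => exact leib_star (X := X.str) a u
    | loop i => exact leib_loop (X := X.str) i u

/-- A dg module in the slim form. -/
def fromD (Y : GZ.DGM (GZ.ginz Q.toGZ)) : Mod Q where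
  M := ModuleCat.of k Y.M
  str :=
    { gr := Y.gr
      dec := (DirectSum.isInternal_submodule_iff_iSupIndep_and_iSup_eq_top _).2 ⟨Y.indep, Y.iSup_eq_top⟩
      d := Y.d
      d_gr := by
        rintro v p _ ⟨u, hu, rfl⟩
        exact Y.d_mem rfl hu
      d_d := LinearMap.ext Y.d_d
      x := fun a => Y.act (.arr a)
      x_gr := fun a => Carries.mk (fun p u hu => Y.act_mem (.arr a) rfl hu)
        (fun v p hv u hu => Y.act_zero (.arr a) hv hu)
      d_x := fun a => by
        apply LinearMap.ext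
        intro u
        have h1 := Y.leibniz (.arr a) u
        change Y.d (Y.act (.arr a) u) = GZ.evP Y.act [] u + GZ.sg k 0 • Y.act (.arr a) (Y.d u) at h1
        rw [GZ.evP_nil, GZ.sg_zero, one_smul, LinearMap.zero_apply, zero_add] at h1
        exact h1
      y := fun a => Y.act (.star a)
      y_gr := fun a => Carries.mk (fun p u hu => Y.act_mem (.star a) rfl hu)
        (fun v p hv u hu => Y.act_zero (.star a) hv hu)
      d_y := fun a => leib_star_iff Y.d Y.act _ (fun a => Y.act (.star a)) (fun _ => rfl) a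
        (fun u => Y.leibniz (.star a) u)
      z := fun i => Y.act (.loop i)
      z_gr := fun i => Carries.mk (fun p u hu => Y.act_mem (.loop i) rfl hu)
        (fun v p hv u hu => Y.act_zero (.loop i) hv hu)
      d_z := fun i => leib_loop_iff Y.d Y.act _ _ (fun i => Y.act (.loop i)) (fun _ => rfl)
        (fun _ => rfl) i (fun u => Y.leibniz (.loop i) u) }

lemma lin_mem_iff {X Y : Mod Q} (f : X.M →ₗ[k] Y.M) :
    IsHom X.str Y.str f ↔ f ∈ GZ.DGM.Z0 (toD X) (toD Y) := by
  constructor
  · intro h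
    refine ⟨fun v p u hu => h.gr v p (Submodule.mem_map_of_mem hu), ?_,
      fun u => LinearMap.congr_fun h.d u⟩
    intro a u
    cases a with
    | arr a => exact LinearMap.congr_fun (h.x a) u
    | star a => exact LinearMap.congr_fun (h.y a) u
    | loop i => exact LinearMap.congr_fun (h.z i) u
  · intro h
    refine ⟨?_, LinearMap.ext h.2.2, fun a => LinearMap.ext (h.2.1 (.arr a)),
      fun a => LinearMap.ext (h.2.1 (.star a)), fun i => LinearMap.ext (h.2.1 (.loop i))⟩
    rintro v p _ ⟨u, hu, rfl⟩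
    exact h.1 v p u hu

/-- The functor between the two categories of dg modules. -/
def toF (Q : QP k) : Mod Q ⥤ GZ.DGM (GZ.ginz Q.toGZ) where
  obj := toD
  map {X Y} a := (⟨ln a, (lin_mem_iff (ln a)).1 (Mor.hom a)⟩ : GZ.DGM.Hom (toD X) (toD Y))
  map_id X := rfl
  map_comp f g := rfl

lemma lin_toF {X Y : Mod Q} (a : X ⟶ Y) : GZ.DGM.lin ((toF Q).map a) = ln a := rfl

instance : (toF Q).Faithful where
  map_injective {X Y a b} h := Mor.ext (congrArg GZ.DGM.lin h)

instance : (toF Q).Full where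
  map_surjective {X Y} g :=
    ⟨(⟨GZ.DGM.lin g, (lin_mem_iff (X := X) (Y := Y) (GZ.DGM.lin g)).2 g.mem⟩ : Mor X Y), rfl⟩

instance : (toF Q).EssSurj where
  mem_essImage Y := ⟨fromD Y, ⟨GZ.DGM.idIso (X := toD (fromD Y)) (Y := Y) (LinearEquiv.refl k Y.M)
    (fun v p x => Iff.rfl) (fun a x => by cases a <;> rfl) (fun x => rfl)⟩⟩

instance : (toF Q).IsEquivalence where

end Gin
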