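import Pool.Agent.Lib_MP_a23b08_s.SStd
import Pool.Agent.Lib_MP_a23b08_g.GFinal

/-!
# The torus with two punctures: from the concrete model to the statement
-/

open CategoryTheory CategoryTheory.Limits CategoryTheory.Triangulated
  CategoryTheory.Pretriangulated

namespace Gin

/-- The quiver with potential of the closed torus with two punctures, see `GZ.torus`. -/
def torus (k : Type) [Field k] : QP k where
  n := 6
  m := 12
  src := ![0, 2, 3, 1, 4, 2, 0, 5, 4, 1, 3, 5]
  tgt := ![2, 3, 0, 4, 2, 1, 5, 4, 0, 3, 5, 1]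
  W := [(1, [2, 1, 0]), (1, [5, 4, 3]), (1, [8, 7, 6]), (1, [11, 10, 9]), (-1, [4, 7, 10, 1]),
    (-1, [2, 9, 5, 0, 8, 3, 11, 6])]
  three := by
    intro t ht
    simp only [List.mem_cons, List.not_mem_nil, or_false] at ht
    rcases ht with rfl | rfl | rfl | rfl | rfl | rfl <;> simp
  cyclic := by
    intro t ht
    simp only [List.mem_cons, List.not_mem_nil, or_false] at ht
    rcases ht with rfl | rfl | rfl | rfl | rfl | rfl <;> simp

lemma toGZ_torus (k : Type) [Field k] : (torus k).toGZ = GZ.torus k := rfl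

/-- The statement for the concrete model, for all quivers with potential equal to `GZ.torus k`. -/
lemma main_of_eq (k : Type) [Field k] [IsAlgClosed k]
    (hG : EGr.Good k (GZ.stdT (GZ.ginz_nice (GZ.torus k)))) (Q : GZ.QP k) (hQ : Q = GZ.torus k)
    (hΓ : (GZ.ginz Q).Nice) : (∀ a : EGr.Vertex (GZ.stdT hΓ), EGr.NonDeg a.t) ∧
      ¬ EGr.SimplyConnected k (GZ.stdT hΓ) := by
  subst hQ
  exact GZ.torus_main k hG

/-- The final statement, from the base case of part N. -/
theorem main_of_good (k : Type) [Field k] [IsAlgClosed k]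
    (hG : EGr.Good k (GZ.stdT (GZ.ginz_nice (GZ.torus k)))) :
    ∃ (Q : QP k) (D : Type 1) (_ : Category.{1} D) (_ : Preadditive D) (_ : HasZeroObject D)
      (_ : HasShift D ℤ) (_ : ∀ n : ℤ, (shiftFunctor D n).Additive) (_ : Pretriangulated D)
      (_ : Linear k D) (L : Mod Q ⥤ D) (e : ShiftIso L) (P : ObjectProperty D)
      (_ : P.IsTriangulated) (t : TStructure P.FullSubcategory),
      IsDerived L e ∧ IsStd L P t ∧ (∀ a : EGr.Vertex t, EGr.NonDeg a.t) ∧
        ¬ EGr.SimplyConnected k t := by
  have hΓ : (GZ.ginz (torus k).toGZ).Nice := GZ.ginz_nice _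
  have h := main_of_eq k hG (torus k).toGZ (toGZ_torus k) hΓ
  exact ⟨torus k, GZ.DGM.Der (GZ.ginz (torus k).toGZ), inferInstance, inferInstance, inferInstance,
    inferInstance, inferInstance, inferInstance, inferInstance, LF (torus k), eF (torus k),
    GZ.nilP _, inferInstance, GZ.stdT hΓ, isDerived_LF _, isStd_LF _ hΓ, h.1, h.2⟩

end Gin
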