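import Pool.Agent.Lib_MP_a23b08_g.GQ

/-!
# The derived category is the localization of the category of dg modules at the quasi-isomorphisms
-/

set_option backward.isDefEq.respectTransparency false
set_option backward.defeqAttrib.useBackward true

open CategoryTheory CategoryTheory.Limits

namespace GZ

variable {k : Type} [Field k] {Γ : QF k}

namespace DGM

variable {X Y : DGM Γ}

/-- The cylinder `X ⊕ X ⊕ X⟦1⟧` of a dg module. -/
@[reducible] def cylO (X : DGM Γ) : DGM Γ where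
  M := (X.M × X.M) × X.M
  gr v p := ((X.gr v p).prod (X.gr v p)).prod ((X.sh 1).gr v p)
  indep := iSupIndep_prod (iSupIndep_prod X.indep X.indep) (X.sh 1).indep
  iSup_eq_top := iSup_prod_eq_top (iSup_prod_eq_top X.iSup_eq_top X.iSup_eq_top)
    (X.sh 1).iSup_eq_top
  d := ((X.d.prodMap X.d) ∘ₗ LinearMap.fst k (X.M × X.M) X.M +
    ((-LinearMap.id).prod LinearMap.id) ∘ₗ LinearMap.snd k (X.M × X.M) X.M).prod
    ((X.sh 1).d ∘ₗ LinearMap.snd k (X.M × X.M) X.M)
  act a := ((X.act a).prodMap (X.act a)).prodMap ((X.sh 1).act a)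
  d_mem := by
    rintro v p q ⟨⟨x, y⟩, w⟩ h ⟨⟨hx, hy⟩, hw⟩
    subst h
    exact ⟨⟨add_mem (X.d_mem rfl hx) (neg_mem hw), add_mem (X.d_mem rfl hy) hw⟩,
      (X.sh 1).d_mem rfl hw⟩
  d_d := by
    rintro ⟨⟨x, y⟩, w⟩
    have := (X.sh 1).d_d w
    refine Prod.ext (Prod.ext ?_ ?_) ?_
    · simp [X.d_d]
    · simp [X.d_d]
    · exact this
  act_mem := by
    rintro a p q ⟨⟨x, y⟩, w⟩ h ⟨⟨hx, hy⟩, hw⟩
    exact ⟨⟨X.act_mem a h hx, X.act_mem a h hy⟩, (X.sh 1).act_mem a h hw⟩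
  act_zero := by
    rintro a v p ⟨⟨x, y⟩, w⟩ h ⟨⟨hx, hy⟩, hw⟩
    exact Prod.ext (Prod.ext (X.act_zero a h hx) (X.act_zero a h hy)) ((X.sh 1).act_zero a h hw)
  leibniz := by
    rintro a ⟨⟨x, y⟩, w⟩
    rw [evP_prodMap, evP_prodMap]
    have h1 := X.leibniz a x
    have h2 := X.leibniz a y
    have h3 := (X.sh 1).leibniz a w
    refine Prod.ext (Prod.ext ?_ ?_) ?_
    · simp [h1]
      abel
    · simp [h2, add_assoc]
    · exact h3

lemma cylO_d (x y w : X.M) :
    (cylO X).d ((x, y), w) = ((X.d x - w, X.d y + w), -X.d w) := by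
  refine Prod.ext (Prod.ext ?_ ?_) ?_
  · change X.d x + -w = _
    rw [sub_eq_add_neg]
  · rfl
  · change (sg k 1 • X.d) w = _
    simp

lemma cylO_act (a : Γ.A) (x y w : X.M) :
    (cylO X).act a ((x, y), w) = ((X.act a x, X.act a y), sg k (Γ.deg a) • X.act a w) := by
  refine Prod.ext (Prod.ext ?_ ?_) ?_
  · rfl
  · rfl
  · change (sg k (1 * Γ.deg a) • X.act a) w = _
    simp

/-- The first end of the cylinder. -/
def cylI (X : DGM Γ) : X ⟶ cylO X :=
  homMk (X := X) (Y := cylO X) (LinearMap.inl k (X.M × X.M) X.M ∘ₗ LinearMap.inl k X.M X.M)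
    (fun v p x hx => ⟨⟨hx, zero_mem _⟩, zero_mem _⟩)
    (fun a x => by
      change ((X.act a x, (0 : X.M)), (0 : X.M)) = (cylO X).act a ((x, (0 : X.M)), (0 : X.M))
      rw [cylO_act, map_zero, smul_zero])
    (fun x => by
      change ((X.d x, (0 : X.M)), (0 : X.M)) = (cylO X).d ((x, (0 : X.M)), (0 : X.M))
      rw [cylO_d, map_zero, neg_zero, sub_zero, add_zero])

/-- The second end of the cylinder. -/
def cylJ (X : DGM Γ) : X ⟶ cylO X :=
  homMk (X := X) (Y := cylO X) (LinearMap.inl k (X.M × X.M) X.M ∘ₗ LinearMap.inr k X.M X.M)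
    (fun v p x hx => ⟨⟨zero_mem _, hx⟩, zero_mem _⟩)
    (fun a x => by
      change (((0 : X.M), X.act a x), (0 : X.M)) = (cylO X).act a (((0 : X.M), x), (0 : X.M))
      rw [cylO_act, map_zero, smul_zero])
    (fun x => by
      change (((0 : X.M), X.d x), (0 : X.M)) = (cylO X).d (((0 : X.M), x), (0 : X.M))
      rw [cylO_d, map_zero, neg_zero, sub_zero, add_zero])

/-- The morphism from the cylinder given by a homotopy. -/
def cylH {f g : X ⟶ Y} (z : X.M →ₗ[k] Y.M) (hz : z ∈ Lin X Y (-1))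
    (h : ∀ x, lin f x = Y.d (z x) + z (X.d x) + lin g x) : cylO X ⟶ Y :=
  homMk (X := cylO X) (Y := Y)
    ((lin f ∘ₗ LinearMap.fst k X.M X.M + lin g ∘ₗ LinearMap.snd k X.M X.M) ∘ₗ
      LinearMap.fst k (X.M × X.M) X.M - z ∘ₗ LinearMap.snd k (X.M × X.M) X.M)
    (by
      rintro v p ⟨⟨x, y⟩, w⟩ ⟨⟨hx, hy⟩, hw⟩
      exact sub_mem (add_mem (lin_mem f hx) (lin_mem g hy)) (lin_neg_one_mem hz rfl hw))
    (by
      rintro a ⟨⟨x, y⟩, w⟩
      rw [cylO_act]
      change lin f (X.act a x) + lin g (X.act a y) - z (sg k (Γ.deg a) • X.act a w) =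
        Y.act a (lin f x + lin g y - z w)
      rw [lin_act, lin_act, map_smul, lin_neg_one_act hz, sg_mul_self_smul, map_sub, map_add])
    (by
      rintro ⟨⟨x, y⟩, w⟩
      rw [cylO_d]
      change lin f (X.d x - w) + lin g (X.d y + w) - z (-X.d w) = Y.d (lin f x + lin g y - z w)
      rw [map_sub, map_add, map_neg, h w, map_sub, map_add, lin_d, lin_d]
      abel)

lemma cylI_H {f g : X ⟶ Y} (z : X.M →ₗ[k] Y.M) (hz : z ∈ Lin X Y (-1))
    (h : ∀ x, lin f x = Y.d (z x) + z (X.d x) + lin g x) : cylI X ≫ cylH z hz h = f := by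
  apply hom_ext
  intro x
  change lin f x + lin g 0 - z 0 = lin f x
  rw [map_zero, map_zero, add_zero, sub_zero]

lemma cylJ_H {f g : X ⟶ Y} (z : X.M →ₗ[k] Y.M) (hz : z ∈ Lin X Y (-1))
    (h : ∀ x, lin f x = Y.d (z x) + z (X.d x) + lin g x) : cylJ X ≫ cylH z hz h = g := by
  apply hom_ext
  intro x
  change lin f 0 + lin g x - z 0 = lin g x
  rw [map_zero, map_zero, zero_add, sub_zero]

/-- The projection of the cylinder. -/
def cylP (X : DGM Γ) : cylO X ⟶ X :=
  cylH (f := 𝟙 X) (g := 𝟙 X) 0 (zero_mem _) (fun x => by simp)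

lemma cylI_P (X : DGM Γ) : cylI X ≫ cylP X = 𝟙 X := cylI_H _ _ _

lemma cylJ_P (X : DGM Γ) : cylJ X ≫ cylP X = 𝟙 X := cylJ_H _ _ _

lemma cylP_I (X : DGM Γ) : (quot Γ).map (cylP X ≫ cylI X) = (quot Γ).map (𝟙 (cylO X)) := by
  refine Eq.symm (quot_map_eq ((0 : (cylO X).M →ₗ[k] X.M × X.M).prod
    (LinearMap.snd k X.M X.M ∘ₗ LinearMap.fst k (X.M × X.M) X.M)) (mem_lin_neg_one ?_ ?_) ?_)
  · rintro v p q ⟨⟨x, y⟩, w⟩ h ⟨⟨hx, hy⟩, hw⟩
    subst h
    exact ⟨zero_mem _, hy⟩
  · rintro a ⟨⟨x, y⟩, w⟩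
    rw [cylO_act]
    change (((0 : X.M), (0 : X.M)), X.act a y) =
      sg k (Γ.deg a) • (cylO X).act a (((0 : X.M), (0 : X.M)), y)
    rw [cylO_act, map_zero]
    refine Prod.ext (Prod.ext ?_ ?_) ?_
    · simp
    · simp
    · simp
  · rintro ⟨⟨x, y⟩, w⟩
    change ((x, y), w) = (cylO X).d (((0 : X.M), (0 : X.M)), y) +
      (((0 : X.M), (0 : X.M)), ((cylO X).d ((x, y), w)).1.2) +
      ((x + y - (0 : X.M →ₗ[k] X.M) w, (0 : X.M)), (0 : X.M))
    rw [cylO_d, cylO_d, map_zero]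
    refine Prod.ext (Prod.ext ?_ ?_) ?_
    · change x = 0 - y + 0 + (x + y - 0)
      abel
    · change y = 0 + y + 0 + 0
      abel
    · change w = -X.d y + (X.d y + w) + 0
      abel

variable (Γ) in
/-- The homotopy equivalences. -/
def heq : MorphismProperty (DGM Γ) := fun _ _ f => IsIso ((quot Γ).map f)

lemma heq_cylP (X : DGM Γ) : heq Γ (cylP X) := by
  refine ⟨(quot Γ).map (cylI X), ?_, ?_⟩
  · rw [← Functor.map_comp, cylP_I, CategoryTheory.Functor.map_id]
  · rw [← Functor.map_comp, cylI_P, CategoryTheory.Functor.map_id]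

/-- A functor which inverts the homotopy equivalences identifies homotopic morphisms. -/
lemma map_eq_of_homRel {E : Type*} [Category E] (F : DGM Γ ⥤ E) (hF : (heq Γ).IsInvertedBy F)
    {X Y : DGM Γ} {f g : X ⟶ Y} (h : homRel Γ f g) : F.map f = F.map g := by
  obtain ⟨z, hz, h⟩ := h
  have h1 : IsIso (F.map (cylP X)) := hF _ (heq_cylP X)
  have h2 : F.map (cylI X) = F.map (cylJ X) := by
    rw [← cancel_mono (F.map (cylP X)), ← F.map_comp, ← F.map_comp, cylI_P, cylJ_P]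
  rw [← cylI_H z hz h, F.map_comp, h2, ← F.map_comp, cylJ_H]

/-- The strict universal property of the homotopy category. -/
def quotUniv (E : Type*) [Category E] :
    Localization.StrictUniversalPropertyFixedTarget (quot Γ) (heq Γ) E where
  inverts := fun _ _ _ h => h
  lift F hF := CategoryTheory.Quotient.lift _ F (fun _ _ _ _ h => map_eq_of_homRel F hF h)
  fac _ _ := rfl
  uniq _ _ h := CategoryTheory.Quotient.lift_unique' _ _ _ h

instance : (quot Γ).IsLocalization (heq Γ) :=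
  Functor.IsLocalization.mk' _ _ (quotUniv _) (quotUniv _)

variable (Γ) in
/-- The quasi-isomorphisms. -/
def qisW : MorphismProperty (DGM Γ) := fun _ _ f => IsQis f

/-- The derived category is the localization of the category of dg modules at the
quasi-isomorphisms. -/
instance isLocalization_Q : (Q Γ).IsLocalization (qisW Γ) := by
  refine Functor.IsLocalization.comp (quot Γ) (Qh Γ) (heq Γ) (acyc Γ).trW (qisW Γ) ?_ ?_ ?_
  · intro X Y f hf
    exact isIso_Q_of_isQis f hf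
  · intro X Y f hf
    have h1 : IsIso ((quot Γ).map f) := hf
    exact (trW_quot_iff f).1 ((acyc Γ).trW_of_isIso _)
  · intro X Y f hf
    obtain ⟨X, rfl⟩ := quot_obj_surjective X
    obtain ⟨Y, rfl⟩ := quot_obj_surjective Y
    obtain ⟨f, rfl⟩ := (quot Γ).map_surjective f
    exact (qisW Γ).map_mem_map _ _ ((trW_quot_iff f).1 hf)

end DGM

end GZ
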