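import Pool.Agent.Lib_MP_a23b08_s.SDer
import Pool.Agent.Lib_MP_a23b08_s.SLoc
import Pool.Agent.Lib_MP_a23b08_g.GTStr

/-!
# The model of the derived category and of its standard t-structure
-/

open CategoryTheory CategoryTheory.Limits CategoryTheory.Pretriangulated

set_option backward.isDefEq.respectTransparency false
set_option linter.unusedVariables false

namespace Gin

variable {k : Type} [Field k] {Q : QP k}

lemma qis_iff {X Y : Mod Q} (f : X ⟶ Y) : qis Q f ↔ GZ.DGM.IsQis ((toF Q).map f) := by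
  constructor
  · intro h
    refine ⟨fun u hu hf => ?_, fun w hw => ?_⟩
    · exact h.1 u hu hf
    · obtain ⟨u, hu, y, hy⟩ := h.2 w hw
      refine ⟨u, y, hu, ?_⟩
      change w = ln f u + Y.str.d y
      rw [hy, add_sub_cancel]
  · intro h
    refine ⟨fun u hu hf => h.inj u hu hf, fun w hw => ?_⟩
    obtain ⟨u, y, hu, hy⟩ := h.surj w hw
    refine ⟨u, hu, y, ?_⟩
    change w = ln f u + Y.str.d y at hy
    rw [hy, add_sub_cancel_left]

instance isLocalization_LF (Q : QP k) : (LF Q).IsLocalization (qis Q) := by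
  refine Functor.IsLocalization.of_equivalence_source (GZ.DGM.Q (GZ.ginz Q.toGZ))
    (GZ.DGM.qisW (GZ.ginz Q.toGZ)) (LF Q) (qis Q) (toF Q).asEquivalence.symm ?_ ?_ ?_
  · intro X Y f hf
    refine MorphismProperty.le_isoClosure (qis Q) _ ?_
    change qis Q ((toF Q).inv.map f)
    rw [qis_iff, ← GZ.DGM.isIso_Q_iff_isQis, Functor.fun_inv_map]
    have h1 : IsIso ((GZ.DGM.Q (GZ.ginz Q.toGZ)).map f) := GZ.DGM.isIso_Q_of_isQis f hf
    have h2 : IsIso ((toF Q).asEquivalence.counit.app X) :=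
      inferInstanceAs (IsIso ((toF Q).asEquivalence.counitIso.hom.app X))
    have h3 : IsIso ((toF Q).asEquivalence.counitInv.app Y) :=
      inferInstanceAs (IsIso ((toF Q).asEquivalence.counitIso.inv.app Y))
    rw [Functor.map_comp, Functor.map_comp]
    infer_instance
  · intro X Y f hf
    exact GZ.DGM.isIso_Q_of_isQis _ ((qis_iff f).1 hf)
  · exact (Functor.associator _ _ _).symm ≪≫
      Functor.isoWhiskerRight (toF Q).asEquivalence.counitIso (GZ.DGM.Q (GZ.ginz Q.toGZ)) ≪≫
        Functor.leftUnitor _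

lemma isDerived_LF (Q : QP k) : IsDerived (LF Q) (eF Q) where
  loc := isLocalization_LF Q
  lin := lin_LF
  nat := isNat_eF Q
  tri := tri_iff

/-- The isomorphism `toD (fromD X) ≅ X`. -/
noncomputable def tfI (X : GZ.DGM (GZ.ginz Q.toGZ)) : toD (fromD X) ≅ X :=
  GZ.DGM.idIso (X := toD (fromD X)) (Y := X) (LinearEquiv.refl k X.M)
    (fun v p x => Iff.rfl) (fun a x => by cases a <;> rfl) (fun x => rfl)

lemma cohIn_iff (X : Mod Q) (I : ℤ → Prop) :
    CohIn X.str I ↔ ∀ p, ¬ I p → GZ.DGM.CohZero (toD X) p :=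
  ⟨fun h p hp v x hx hd => h v p hp x hx hd, fun h v p hp x hx hd => h p hp v x hx hd⟩

lemma fin_iff {M : Type} [AddCommGroup M] [Module k M] (d : M →ₗ[k] M) :
    (∃ s : Finset M, ∀ u, d u = 0 → u ∈ Submodule.span k s ⊔ LinearMap.range d) ↔
      Module.Finite k (↥(LinearMap.ker d) ⧸ (LinearMap.range d).comap (LinearMap.ker d).subtype) := by
  constructor
  · rintro ⟨s, hs⟩
    have h1 : Module.Finite k (Submodule.span k ((s : Finset M) : Set M)) := by
      exact Module.Finite.span_finset k s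
    let φ : ↥(LinearMap.ker d) →ₗ[k] M ⧸ LinearMap.range d :=
      (LinearMap.range d).mkQ ∘ₗ (LinearMap.ker d).subtype
    have h2 : LinearMap.range φ ≤ (Submodule.span k (s : Set M)).map (LinearMap.range d).mkQ := by
      rintro _ ⟨⟨u, hu⟩, rfl⟩
      obtain ⟨a, ha, b, hb, hab⟩ := Submodule.mem_sup.1 (hs u (LinearMap.mem_ker.1 hu))
      refine ⟨a, ha, ?_⟩
      change (LinearMap.range d).mkQ a = (LinearMap.range d).mkQ u
      rw [← hab, map_add]
      have : (LinearMap.range d).mkQ b = 0 := (Submodule.Quotient.mk_eq_zero _).2 hb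
      rw [this, add_zero]
    have h3 : Module.Finite k (LinearMap.range φ) := Submodule.finiteDimensional_of_le h2
    have h4 : LinearMap.ker φ = (LinearMap.range d).comap (LinearMap.ker d).subtype := by
      rw [LinearMap.ker_comp, Submodule.ker_mkQ]
    rw [← h4]
    exact Module.Finite.equiv φ.quotKerEquivRange.symm
  · intro h
    obtain ⟨t, ht⟩ := h.fg_top
    let g : (↥(LinearMap.ker d) ⧸ (LinearMap.range d).comap (LinearMap.ker d).subtype) → M :=
      fun c => (Quotient.out c : ↥(LinearMap.ker d))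
    classical
    refine ⟨t.image g, fun u hu => ?_⟩
    have h1 : ∀ c : (↥(LinearMap.ker d) ⧸ (LinearMap.range d).comap (LinearMap.ker d).subtype),
        c ∈ Submodule.span k (t : Set _) → ∀ v : ↥(LinearMap.ker d), Submodule.Quotient.mk v = c →
          (v : M) ∈ Submodule.span k ((t.image g : Finset M) : Set M) ⊔ LinearMap.range d := by
      intro c hc
      induction hc using Submodule.span_induction with
      | mem c hc =>
        intro v hv
        have h2 : Submodule.Quotient.mk (Quotient.out c : ↥(LinearMap.ker d)) = c := Quotient.out_eq c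
        have h3 : v - Quotient.out c ∈ (LinearMap.range d).comap (LinearMap.ker d).subtype := by
          rw [← Submodule.Quotient.eq, hv, h2]
        have h4 : (v : M) = g c + ((v - Quotient.out c : ↥(LinearMap.ker d)) : M) := by
          change (v : M) = (Quotient.out c : ↥(LinearMap.ker d)) + ((v : M) - (Quotient.out c : ↥(LinearMap.ker d)))
          abel
        rw [h4]
        refine Submodule.add_mem_sup (Submodule.subset_span ?_) h3
        exact Finset.mem_coe.2 (Finset.mem_image_of_mem g hc)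
      | zero =>
        intro v hv
        have h8 : v ∈ (LinearMap.range d).comap (LinearMap.ker d).subtype :=
          (Submodule.Quotient.mk_eq_zero _).1 hv
        exact Submodule.mem_sup_right h8
      | add a b _ _ ha hb =>
        intro v hv
        obtain ⟨a', rfl⟩ := Submodule.Quotient.mk_surjective _ a
        have h5 : Submodule.Quotient.mk (v - a') = b := by
          rw [Submodule.Quotient.mk_sub, hv, add_sub_cancel_left]
        have h6 := add_mem (ha a' rfl) (hb (v - a') h5)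
        have h7 : (a' : M) + ((v - a' : ↥(LinearMap.ker d)) : M) = v := by
          change (a' : M) + ((v : M) - a') = v
          abel
        rwa [h7] at h6
      | smul c a _ ha =>
        intro v hv
        obtain ⟨a', rfl⟩ := Submodule.Quotient.mk_surjective _ a
        have h5 : v - c • a' ∈ (LinearMap.range d).comap (LinearMap.ker d).subtype := by
          rw [← Submodule.Quotient.eq, hv, Submodule.Quotient.mk_smul]
        have h6 := add_mem (Submodule.smul_mem _ c (ha a' rfl)) (Submodule.mem_sup_right (S := Submodule.span k ((t.image g : Finset M) : Set M)) h5)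
        have h7 : c • (a' : M) + ((v - c • a' : ↥(LinearMap.ker d)) : M) = v := by
          change c • (a' : M) + ((v : M) - c • (a' : M)) = v
          abel
        exact h7 ▸ h6
    exact h1 (Submodule.Quotient.mk ⟨u, hu⟩) (by rw [ht]; trivial) ⟨u, hu⟩ rfl

lemma exists_arr {n m : ℕ} (w : List (GZ.Gen (Fin n) (Fin m))) (h : ∀ a ∈ w, GZ.Gen.gdeg a = 0) :
    ∃ v : List (Fin m), v.map GZ.Gen.arr = w := by
  induction w with
  | nil => exact ⟨[], rfl⟩
  | cons a w ih =>
    obtain ⟨v, hv⟩ := ih fun b hb => h b (List.mem_cons_of_mem _ hb)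
    have ha := h a (by simp)
    cases a with
    | arr a => exact ⟨a :: v, by rw [List.map_cons, hv]⟩
    | star a => simp [GZ.Gen.gdeg] at ha
    | loop i => simp [GZ.Gen.gdeg] at ha

lemma isNil_iff (X : Mod Q) : IsNil X.str ↔ GZ.DGM.IsNil (toD X) := by
  constructor
  · rintro ⟨h1, l, h2⟩
    refine ⟨(fin_iff X.str.d).1 h1, l, fun w hw hd x hx => ?_⟩
    obtain ⟨v, rfl⟩ := exists_arr w hd
    obtain ⟨y, hy⟩ := h2 v (by simpa using hw) x hx
    refine ⟨y, hy.trans ?_⟩
    exact (evW_map_arr (Q := Q) X.str.x (actG X.str) (fun _ => rfl) v x).symm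
  · rintro ⟨h1, l, h2⟩
    refine ⟨(fin_iff X.str.d).2 h1, l, fun v hv x hx => ?_⟩
    obtain ⟨y, hy⟩ := h2 (v.map GZ.Gen.arr) (by simpa using hv) (by
      intro a ha
      obtain ⟨b, -, rfl⟩ := List.mem_map.1 ha
      rfl) x hx
    refine ⟨y, hy.trans ?_⟩
    exact evW_map_arr (Q := Q) X.str.x (actG X.str) (fun _ => rfl) v x

lemma isStd_LF (Q : QP k) (hΓ : (GZ.ginz Q.toGZ).Nice) :
    IsStd (LF Q) (GZ.nilP (GZ.ginz Q.toGZ)) (GZ.stdT hΓ) := by
  have hI : ∀ X : GZ.DGM.Der (GZ.ginz Q.toGZ), Nonempty (X ≅ (LF Q).obj (fromD (GZ.DGM.und X))) :=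
    fun X => ⟨(GZ.DGM.Q _).mapIso (tfI (GZ.DGM.und X)).symm⟩
  refine ⟨fun X => ⟨fun h => ⟨fromD (GZ.DGM.und X), ?_, hI X⟩, ?_⟩, fun X n => ⟨fun h => ?_, ?_⟩,
    fun X n => ⟨fun h => ?_, ?_⟩⟩
  · obtain ⟨e⟩ := hI X
    rw [isNil_iff, ← GZ.nilP_Q_iff hΓ]
    exact (GZ.nilP _).prop_of_iso e h
  · rintro ⟨M, hM, ⟨e⟩⟩
    rw [isNil_iff, ← GZ.nilP_Q_iff hΓ] at hM
    exact (GZ.nilP _).prop_of_iso e.symm hM
  · obtain ⟨e⟩ := hI X.obj
    refine ⟨_, (cohIn_iff _ _).2 fun p hp => ?_, ⟨e⟩⟩
    have h1 := (GZ.stdT_le_iff hΓ X n).1 h p (not_le.1 hp)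
    exact (GZ.DGM.cohZero_of_iso (X := GZ.DGM.und X.obj) e p).1 h1
  · rintro ⟨M, hM, ⟨e⟩⟩
    refine (GZ.stdT_le_iff hΓ X n).2 fun p hp => ?_
    exact (GZ.DGM.cohZero_of_iso (X := GZ.DGM.und X.obj) e p).2 ((cohIn_iff _ _).1 hM p (not_le.2 hp))
  · obtain ⟨e⟩ := hI X.obj
    refine ⟨_, (cohIn_iff _ _).2 fun p hp => ?_, ⟨e⟩⟩
    have h1 := (GZ.stdT_ge_iff hΓ X n).1 h p (not_le.1 hp)
    exact (GZ.DGM.cohZero_of_iso (X := GZ.DGM.und X.obj) e p).1 h1
  · rintro ⟨M, hM, ⟨e⟩⟩
    refine (GZ.stdT_ge_iff hΓ X n).2 fun p hp => ?_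
    exact (GZ.DGM.cohZero_of_iso (X := GZ.DGM.und X.obj) e p).2 ((cohIn_iff _ _).1 hM p (not_le.2 hp))

end Gin
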