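import Pool.Agent.Lib_MP_a23b08_s.SEquiv
import Pool.Agent.Lib_MP_a23b08_g.GQ

/-!
# Shifts and cones in the two forms
-/

open CategoryTheory CategoryTheory.Limits CategoryTheory.Pretriangulated

set_option backward.isDefEq.respectTransparency false
set_option linter.unusedVariables false

namespace Gin

variable {k : Type} [Field k]

lemma mem_of_equiv {ι M N : Type} [AddCommGroup M] [Module k M] [AddCommGroup N] [Module k N]
    {A : ι → Submodule k M} {B : ι → Submodule k N} (hA : ⨆ i, A i = ⊤) (hB : iSupIndep B)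
    (e : M ≃ₗ[k] N) (h : ∀ i, (A i).map (e : M →ₗ[k] N) ≤ B i) (i : ι) (x : M) :
    x ∈ A i ↔ e x ∈ B i := by
  refine ⟨fun hx => h i (Submodule.mem_map_of_mem hx), fun hx => ?_⟩
  have h1 : x ∈ A i ⊔ ⨆ (j : ι) (_ : j ≠ i), A j := by
    have : (A i ⊔ ⨆ (j : ι) (_ : j ≠ i), A j) = ⊤ := by
      rw [eq_top_iff, ← hA]
      refine iSup_le fun j => ?_
      by_cases hj : j = i
      · subst hj
        exact le_sup_left
      · exact le_sup_of_le_right (le_iSup₂_of_le j hj le_rfl)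
    rw [this]
    trivial
  obtain ⟨a, ha, b, hb, rfl⟩ := Submodule.mem_sup.1 h1
  have h2 : e b ∈ ⨆ (j : ι) (_ : j ≠ i), B j := by
    have h3 : e b ∈ (⨆ (j : ι) (_ : j ≠ i), A j).map (e : M →ₗ[k] N) := Submodule.mem_map_of_mem hb
    rw [Submodule.map_iSup] at h3
    refine (iSup_mono fun j => ?_ : _ ≤ ⨆ (j : ι) (_ : j ≠ i), B j) h3
    rw [Submodule.map_iSup]
    exact iSup_mono fun _ => h j
  have h4 : e b ∈ B i := by
    have : e b = e (a + b) - e a := by rw [map_add]; abel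
    rw [this]
    exact sub_mem hx (h i (Submodule.mem_map_of_mem ha))
  have h5 : e b = 0 := (Submodule.disjoint_def.1 (hB i)) _ h4 h2
  have h6 : b = 0 := by simpa using h5
  rw [h6, add_zero]
  exact ha

variable {Q : QP k}

/-- The shift. -/
noncomputable def shI (X S : Mod Q) (s : X.M →ₗ[k] S.M) (hs : IsShift X.str S.str s) :
    (toD X).sh 1 ≅ toD S :=
  GZ.DGM.idIso (X := (toD X).sh 1) (Y := toD S) (LinearEquiv.ofBijective s hs.bij)
    (fun v p x => mem_of_equiv (A := fun q : Fin Q.n × ℤ => ((toD X).sh 1).gr q.1 q.2)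
      (B := fun q : Fin Q.n × ℤ => (toD S).gr q.1 q.2) ((toD X).sh 1).iSup_eq_top (toD S).indep
      (LinearEquiv.ofBijective s hs.bij) (fun q => hs.gr q.1 q.2) (v, p) x)
    (by
      intro a x
      change s (GZ.sg k (1 * (GZ.ginz Q.toGZ).deg a) • (toD X).act a x) = (toD S).act a (s x)
      cases a with
      | arr a =>
        change s (GZ.sg k 0 • X.str.x a x) = S.str.x a (s x)
        rw [GZ.sg_zero, one_smul]
        exact (LinearMap.congr_fun (hs.x a) x).symm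
      | star a =>
        change s (GZ.sg k (-1) • X.str.y a x) = S.str.y a (s x)
        rw [GZ.sg_neg_one, neg_one_smul, map_neg]
        exact (LinearMap.congr_fun (hs.y a) x).symm
      | loop i =>
        change s (GZ.sg k (-2) • X.str.z i x) = S.str.z i (s x)
        rw [GZ.sg_even (by decide), one_smul]
        exact (LinearMap.congr_fun (hs.z i) x).symm)
    (by
      intro x
      change s (GZ.sg k 1 • X.str.d x) = S.str.d (s x)
      rw [GZ.sg_one, neg_one_smul, map_neg]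
      exact (LinearMap.congr_fun hs.d x).symm)

lemma lin_shI_hom (X S : Mod Q) (s : X.M →ₗ[k] S.M) (hs : IsShift X.str S.str s) (x : X.M) :
    GZ.DGM.lin (shI X S s hs).hom x = s x := rfl

/-- The linear equivalence of a cone. -/
noncomputable def coneE {X Y C : Mod Q} {f : X.M →ₗ[k] Y.M} {i : Y.M →ₗ[k] C.M} {s : X.M →ₗ[k] C.M}
    (hC : IsCone X.str Y.str f C.str i s) : (Y.M × X.M) ≃ₗ[k] C.M :=
  LinearEquiv.ofBijective (i.coprod s) (by
    have h := hC.bij
    have e : (fun u : Y.M × X.M => i u.1 + s u.2) = i.coprod s := by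
      funext u
      rw [LinearMap.coprod_apply]
    rw [e] at h
    exact h)

lemma coneE_apply {X Y C : Mod Q} {f : X.M →ₗ[k] Y.M} {i : Y.M →ₗ[k] C.M} {s : X.M →ₗ[k] C.M}
    (hC : IsCone X.str Y.str f C.str i s) (y : Y.M) (x : X.M) : coneE hC (y, x) = i y + s x := by
  change i.coprod s (y, x) = _
  rw [LinearMap.coprod_apply]

/-- The cone. -/
noncomputable def coneI {X Y C : Mod Q} (f : X ⟶ Y) (i : Y.M →ₗ[k] C.M) (s : X.M →ₗ[k] C.M)
    (hC : IsCone X.str Y.str (ln f) C.str i s) : GZ.DGM.cone ((toF Q).map f) ≅ toD C :=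
  GZ.DGM.idIso (X := GZ.DGM.cone ((toF Q).map f)) (Y := toD C) (coneE hC)
    (fun v p x => mem_of_equiv
      (A := fun q : Fin Q.n × ℤ => (GZ.DGM.cone ((toF Q).map f)).gr q.1 q.2)
      (B := fun q : Fin Q.n × ℤ => (toD C).gr q.1 q.2) (GZ.DGM.cone ((toF Q).map f)).iSup_eq_top
      (toD C).indep (coneE hC) (by
        rintro ⟨v, p⟩ _ ⟨⟨y, x⟩, ⟨hy, hx⟩, rfl⟩
        change coneE hC (y, x) ∈ C.str.gr v p
        rw [coneE_apply]
        exact add_mem (hC.hom.gr v p (Submodule.mem_map_of_mem hy))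
          (hC.gr v p (Submodule.mem_map_of_mem hx))) (v, p) x)
    (by
      rintro a ⟨y, x⟩
      rw [GZ.DGM.cone_act]
      change coneE hC ((toD Y).act a y, GZ.sg k ((GZ.ginz Q.toGZ).deg a) • (toD X).act a x) =
        (toD C).act a (coneE hC (y, x))
      rw [coneE_apply, coneE_apply, map_add]
      cases a with
      | arr a =>
        change i (Y.str.x a y) + s (GZ.sg k 0 • X.str.x a x) = C.str.x a (i y) + C.str.x a (s x)
        rw [GZ.sg_zero, one_smul]
        exact congrArg₂ (· + ·) (LinearMap.congr_fun (hC.hom.x a) y)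
          (LinearMap.congr_fun (hC.x a) x).symm
      | star a =>
        change i (Y.str.y a y) + s (GZ.sg k (-1) • X.str.y a x) = C.str.y a (i y) + C.str.y a (s x)
        rw [GZ.sg_neg_one, neg_one_smul, map_neg]
        exact congrArg₂ (· + ·) (LinearMap.congr_fun (hC.hom.y a) y)
          (LinearMap.congr_fun (hC.y a) x).symm
      | loop j =>
        change i (Y.str.z j y) + s (GZ.sg k (-2) • X.str.z j x) = C.str.z j (i y) + C.str.z j (s x)
        rw [GZ.sg_even (by decide), one_smul]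
        exact congrArg₂ (· + ·) (LinearMap.congr_fun (hC.hom.z j) y)
          (LinearMap.congr_fun (hC.z j) x).symm)
    (by
      rintro ⟨y, x⟩
      rw [GZ.DGM.cone_d]
      change coneE hC (Y.str.d y + ln f x, - X.str.d x) = C.str.d (coneE hC (y, x))
      rw [coneE_apply, coneE_apply, map_add, map_add, map_neg]
      have h1 : i (Y.str.d y) = C.str.d (i y) := LinearMap.congr_fun hC.hom.d y
      have h2 : C.str.d (s x) = i (ln f x) - s (X.str.d x) := LinearMap.congr_fun hC.d x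
      rw [h1, h2]
      abel)

lemma lin_coneI_hom {X Y C : Mod Q} (f : X ⟶ Y) (i : Y.M →ₗ[k] C.M) (s : X.M →ₗ[k] C.M)
    (hC : IsCone X.str Y.str (ln f) C.str i s) (y : Y.M) (x : X.M) :
    GZ.DGM.lin (coneI f i s hC).hom (y, x) = i y + s x := coneE_apply hC y x

/-- The functor to the derived category. -/
noncomputable def LF (Q : QP k) : Mod Q ⥤ GZ.DGM.Der (GZ.ginz Q.toGZ) := toF Q ⋙ GZ.DGM.Q _

/-- The shift isomorphisms. -/
noncomputable def eF (Q : QP k) : ShiftIso (LF Q) := fun X S s hs =>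
  (GZ.DGM.Q _).mapIso (shI X S s hs).symm ≪≫ ((GZ.DGM.Q _).commShiftIso (1 : ℤ)).app (toD X)

lemma eF_hom (X S : Mod Q) (s : X.M →ₗ[k] S.M) (hs : IsShift X.str S.str s) :
    (eF Q X S s hs).hom = (GZ.DGM.Q (GZ.ginz Q.toGZ)).map (shI X S s hs).inv ≫
      ((GZ.DGM.Q (GZ.ginz Q.toGZ)).commShiftIso (1 : ℤ)).hom.app (toD X) := rfl

lemma isNat_eF (Q : QP k) : IsNat (LF Q) (eF Q) := by
  intro X S X' S' s s' hs hs' f g hfg
  let u : toD X ⟶ toD X' := (toF Q).map f
  let v : toD S ⟶ toD S' := (toF Q).map g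
  have h0 : (shI X S s hs).hom ≫ v = GZ.DGM.shMap u 1 ≫ (shI X' S' s' hs').hom := by
    apply GZ.DGM.hom_ext
    intro x
    exact LinearMap.congr_fun hfg x
  have h1 : v ≫ (shI X' S' s' hs').inv = (shI X S s hs).inv ≫ u⟦(1 : ℤ)⟧' := by
    rw [Iso.comp_inv_eq, Category.assoc, Iso.eq_inv_comp]
    exact h0
  have h2 : (GZ.DGM.Q (GZ.ginz Q.toGZ)).map v ≫ (GZ.DGM.Q (GZ.ginz Q.toGZ)).map (shI X' S' s' hs').inv =
      (GZ.DGM.Q (GZ.ginz Q.toGZ)).map (shI X S s hs).inv ≫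
        (GZ.DGM.Q (GZ.ginz Q.toGZ)).map (u⟦(1 : ℤ)⟧') := by
    rw [← Functor.map_comp, ← Functor.map_comp, h1]
  change (GZ.DGM.Q (GZ.ginz Q.toGZ)).map v ≫ (GZ.DGM.Q (GZ.ginz Q.toGZ)).map (shI X' S' s' hs').inv ≫
      ((GZ.DGM.Q (GZ.ginz Q.toGZ)).commShiftIso (1 : ℤ)).hom.app (toD X') =
    ((GZ.DGM.Q (GZ.ginz Q.toGZ)).map (shI X S s hs).inv ≫
      ((GZ.DGM.Q (GZ.ginz Q.toGZ)).commShiftIso (1 : ℤ)).hom.app (toD X)) ≫
        ((GZ.DGM.Q (GZ.ginz Q.toGZ)).map u)⟦(1 : ℤ)⟧'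
  rw [← Category.assoc, h2, Category.assoc, Category.assoc]
  congr 1
  exact (GZ.DGM.Q (GZ.ginz Q.toGZ)).commShiftIso_hom_naturality u 1

lemma coneTri_iso (Q : QP k) {X Y C S : Mod Q} (f : X ⟶ Y) (i : Y ⟶ C) (s : X.M →ₗ[k] C.M)
    (p : C ⟶ S) (hS : IsShift X.str S.str (ln p ∘ₗ s)) (hC : IsCone X.str Y.str (ln f) C.str (ln i) s)
    (hp : ln p ∘ₗ ln i = 0) :
    Nonempty (Triangle.mk ((LF Q).map f) ((LF Q).map i) ((LF Q).map p ≫ (eF Q X S (ln p ∘ₗ s) hS).hom) ≅
      (GZ.DGM.Q (GZ.ginz Q.toGZ)).mapTriangle.obj (GZ.DGM.tri ((toF Q).map f))) := by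
  let F := GZ.DGM.Q (GZ.ginz Q.toGZ)
  let u : toD X ⟶ toD Y := (toF Q).map f
  let j : toD Y ⟶ toD C := (toF Q).map i
  let r : toD C ⟶ toD S := (toF Q).map p
  let c : GZ.DGM.cone u ≅ toD C := coneI f (ln i) s hC
  let t := shI X S (ln p ∘ₗ s) hS
  have h1 : GZ.DGM.inr u ≫ c.hom = j := by
    apply GZ.DGM.hom_ext
    intro y
    change GZ.DGM.lin c.hom (y, 0) = ln i y
    refine (lin_coneI_hom f (ln i) s hC y 0).trans ?_
    rw [map_zero, add_zero]
  have h2 : c.hom ≫ r = GZ.DGM.pr u ≫ t.hom := by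
    apply GZ.DGM.hom_ext
    rintro ⟨y, x⟩
    change ln p (GZ.DGM.lin c.hom (y, x)) = ln p (s x)
    refine (congrArg (ln p) (lin_coneI_hom f (ln i) s hC y x)).trans ?_
    rw [map_add]
    have : ln p (ln i y) = 0 := LinearMap.congr_fun hp y
    rw [this, zero_add]
  refine ⟨Triangle.isoMk _ _ (Iso.refl _) (Iso.refl _) (F.mapIso c).symm ?_ ?_ ?_⟩
  · exact (Category.comp_id _).trans (Category.id_comp _).symm
  · change F.map j ≫ F.map c.inv = 𝟙 (F.obj (toD Y)) ≫ F.map (GZ.DGM.inr u)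
    rw [Category.id_comp, ← Functor.map_comp, ← h1, Category.assoc, Iso.hom_inv_id,
      Category.comp_id]
  · change (F.map r ≫ F.map t.inv ≫ (F.commShiftIso (1 : ℤ)).hom.app (toD X)) ≫
        (𝟙 (F.obj (toD X)))⟦(1 : ℤ)⟧' =
      F.map c.inv ≫ F.map (GZ.DGM.pr u) ≫ (F.commShiftIso (1 : ℤ)).hom.app (toD X)
    rw [CategoryTheory.Functor.map_id]
    refine (Category.comp_id _).trans ?_
    have h3 : r ≫ t.inv = c.inv ≫ GZ.DGM.pr u := by
      rw [Iso.comp_inv_eq, Category.assoc, Iso.eq_inv_comp]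
      exact h2
    have h4 : F.map r ≫ F.map t.inv = F.map c.inv ≫ F.map (GZ.DGM.pr u) := by
      rw [← Functor.map_comp, ← Functor.map_comp, h3]
    rw [← Category.assoc, h4, Category.assoc]

end Gin
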