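import Pool.Agent.Lib_MP_a23b08_s.SDef
import Pool.Agent.Lib_MP_a23b08_al.QP

/-!
# The two forms of the cyclic derivative and of the quiver with potential
-/

open CategoryTheory

namespace Gin

lemma cder_eq {A : Type} [DecidableEq A] (a : A) (u v : List A) :
    GZ.cder a u v = ((List.range v.length).filter fun i => v[i]? = some a).map fun i =>
      v.drop (i + 1) ++ (u ++ v.take i) := by
  induction v generalizing u with
  | nil => simp [GZ.cder]
  | cons b v ih =>
    rw [GZ.cder, ih]
    rw [List.length_cons, List.range_succ_eq_map, List.filter_cons, List.filter_map]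
    have h1 : ((b :: v)[0]? = some a) ↔ b = a := by simp
    have h2 : List.map (fun i => List.drop (i + 1) v ++ (u ++ [b] ++ List.take i v))
          (List.filter (fun i => decide (v[i]? = some a)) (List.range v.length)) =
        List.map (fun i => List.drop (i + 1) (b :: v) ++ (u ++ List.take i (b :: v)))
          (List.map Nat.succ (List.filter ((fun i => decide ((b :: v)[i]? = some a)) ∘ Nat.succ)
            (List.range v.length))) := by
      rw [List.map_map]
      have h3 : ((fun i => decide ((b :: v)[i]? = some a)) ∘ Nat.succ) =
          fun i => decide (v[i]? = some a) := by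
        funext i
        simp
      rw [h3]
      refine List.map_congr_left fun i _ => ?_
      simp
    split_ifs with hb hc hc
    · rw [List.map_cons, h2]
      simp
    · exact absurd (by simpa using hb) hc
    · exact absurd (by simpa using hc) hb
    · exact h2

variable {k : Type} [Field k]

lemma isPath_of_isChain {V A : Type} {src tgt : A → V} (a : A) (w : List A) (i : V)
    (h : (a :: w).IsChain fun a b => src a = tgt b) (hi : src ((a :: w).getLast (by simp)) = i) :
    GZ.IsPath src tgt i (tgt a) (a :: w) := by
  induction w generalizing a with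
  | nil =>
    refine ⟨rfl, ?_⟩
    change i = src a
    simpa using hi.symm
  | cons b w ih =>
    rw [List.isChain_cons_cons] at h
    refine ⟨rfl, ?_⟩
    rw [h.1]
    exact ih b h.2 (by simpa using hi)

lemma exists_isPath {V A : Type} {src tgt : A → V} (w : List A) (hw : 3 ≤ w.length)
    (h : (w ++ w).IsChain fun a b => src a = tgt b) : ∃ v, GZ.IsPath src tgt v v w := by
  cases w with
  | nil => simp at hw
  | cons a w =>
    refine ⟨tgt a, isPath_of_isChain a w _ (List.isChain_append.1 h).1 ?_⟩
    have h1 := (List.isChain_append.1 h).2.2
    refine h1 _ ?_ _ ?_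
    · exact List.getLast?_eq_getLast_of_ne_nil (by simp)
    · simp

/-- The quiver with potential in the other form. -/
def QP.toGZ (Q : QP k) : GZ.QP k where
  V := Fin Q.n
  A := Fin Q.m
  src := Q.src
  tgt := Q.tgt
  W := Q.W
  cyclic t ht := exists_isPath t.2 (Q.three t ht) (Q.cyclic t ht)
  three := Q.three

lemma dW_toGZ (Q : QP k) (a : Fin Q.m) : Q.toGZ.dW a = Q.dW a := by
  unfold GZ.QP.dW QP.dW
  change List.flatMap _ Q.W = List.flatMap _ Q.W
  congr 1
  funext t
  rw [cder_eq, List.map_map]
  refine List.map_congr_left fun i _ => ?_
  simp
  rfl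

end Gin
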